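import Pool.Agent.H334R2.CM.S.FIN

/-!
# MP_bea28b_al: a finite simple group not characterised by its Cartan matrix

The simple group `PSL(2,967)` and the group `11^{3+3} : PSL(2,7)` have the same Cartan matrix over
every algebraically closed field of characteristic 2.

`CM.IsCartan A C` (file `Pool/Agent/H334R2/CM/Defs.lean`): there are families `S i`, `P i` of
`A`-modules such that the `S i` are pairwise non-isomorphic simple modules, every simple module is
isomorphic to one of them, `P i` is a projective cover of `S i`, and `S j` occurs exactly `C i j`
times in a composition series of `P i`.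
-/

set_option autoImplicit false

universe u

/-- there are a nonabelian finite simple group `G` and a finite group `H`, not isomorphic to `G`,
with the same Cartan matrix over every algebraically closed field `k` of characteristic 2 -/
theorem Pool.Agent.Results.MP_bea28b_al.CartanMatrix.result :
    ∃ (G H : Type) (_ : Group G) (_ : Group H) (_ : Finite G) (_ : Finite H),
      IsSimpleGroup G ∧ (∃ a b : G, a * b ≠ b * a) ∧ ¬ Nonempty (G ≃* H) ∧
      ∀ (k : Type u) [Field k] [IsAlgClosed k] [CharP k 2],
        ∃ (r : ℕ) (C : Matrix (Fin r) (Fin r) ℕ),
          CM.IsCartan (MonoidAlgebra k G) C ∧ CM.IsCartan (MonoidAlgebra k H) C :=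
  CM.FIN
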